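import Mathlib

open Complex Set Filter Topology
open scoped ContDiff

namespace Pool.Agent.V1185.Orth

/-- A smooth bump equal to `1` on `[-5/2, 5/2]` and supported in `(-3, 3)`. -/
noncomputable def bump : ContDiffBump (0 : ℝ) := ⟨5 / 2, 3, by norm_num, by norm_num⟩

/-- The function `y/2`, cut off smoothly. -/
noncomputable def Yf (y : ℝ) : ℝ := y / 2 * bump y

theorem Yf_eq {y : ℝ} (hy : |y| < 5 / 2) : Yf y = y / 2 := by
  unfold Yf
  rw [bump.one_of_mem_closedBall, mul_one]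
  rw [Metric.mem_closedBall, dist_zero_right, Real.norm_eq_abs]
  exact hy.le

theorem Yf_smooth : ContDiff ℝ ∞ Yf := by
  unfold Yf
  exact (contDiff_id.div_const 2).mul bump.contDiff

theorem Yf_abs (y : ℝ) : |Yf y| ≤ 3 / 2 := by
  unfold Yf
  rw [abs_mul]
  by_cases h : |y| < 3
  · have h1 : |(bump y : ℝ)| ≤ 1 := by
      rw [abs_of_nonneg bump.nonneg]
      exact bump.le_one
    rw [abs_div, abs_of_pos (show (0:ℝ) < 2 by norm_num)]
    have h2 : |y| / 2 ≤ 3 / 2 := by linarith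
    calc |y| / 2 * |(bump y : ℝ)| ≤ 3 / 2 * 1 :=
          mul_le_mul h2 h1 (abs_nonneg _) (by norm_num)
      _ = 3 / 2 := by norm_num
  · push Not at h
    have h1 : (bump y : ℝ) = 0 := by
      apply bump.zero_of_le_dist
      rw [dist_zero_right, Real.norm_eq_abs]
      exact h
    rw [h1]
    norm_num

/-- The holomorphic function. -/
noncomputable def Phi (Z : ℂ) : ℂ :=
  -3 * I * ((Z - (1 + I) / 4) * (1 - (1 - I) / 4 * Z)) / (3 + Z ^ 2)

/-- The argument of `Phi`. -/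
noncomputable def arg1 (z : ℝ × ℝ) : ℂ := (z.1 : ℂ) + (Yf z.2 : ℂ) * I

theorem den_ne {x Y : ℝ} (hY : |Y| ≤ 3 / 2) : (3 : ℂ) + ((x : ℂ) + (Y : ℂ) * I) ^ 2 ≠ 0 := by
  intro h
  have h1 := congrArg Complex.re h
  have h2 := congrArg Complex.im h
  simp [pow_two] at h1 h2
  have hY2 : Y ^ 2 ≤ 9 / 4 := by
    have := abs_le.1 hY
    nlinarith
  have h3 : x * Y = 0 := by linarith
  rcases mul_eq_zero.1 h3 with h4 | h4
  · rw [h4] at h1
    nlinarith
  · rw [h4] at h1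
    nlinarith [sq_nonneg x]

/-- The complex form of the vector field. -/
noncomputable def Fc (z : ℝ × ℝ) : ℂ := Phi (arg1 z)

/-- The vector field. -/
noncomputable def Xf (z : ℝ × ℝ) : ℝ × ℝ := ((Fc z).re, (Fc z).im)

theorem arg1_smooth : ContDiff ℝ ∞ arg1 := by
  unfold arg1
  have h1 : ContDiff ℝ ∞ (fun z : ℝ × ℝ => (z.1 : ℂ)) :=
    Complex.ofRealCLM.contDiff.comp contDiff_fst
  have h2 : ContDiff ℝ ∞ (fun z : ℝ × ℝ => (Yf z.2 : ℂ)) :=
    Complex.ofRealCLM.contDiff.comp (Yf_smooth.comp contDiff_snd)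
  exact h1.add (h2.mul contDiff_const)

theorem Fc_smooth : ContDiff ℝ ∞ Fc := by
  have h := arg1_smooth
  have e : Fc = fun z => (-3 * I * ((arg1 z - (1 + I) / 4) * (1 - (1 - I) / 4 * arg1 z))) *
      (3 + arg1 z ^ 2)⁻¹ := by
    funext z
    unfold Fc Phi
    rw [div_eq_mul_inv]
  rw [e]
  apply ContDiff.mul
  · exact contDiff_const.mul ((h.sub contDiff_const).mul (contDiff_const.sub (contDiff_const.mul h)))
  · apply ContDiff.inv
    · exact contDiff_const.add (h.pow 2)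
    · intro z
      exact den_ne (Yf_abs z.2)

theorem Xf_smooth : ContDiff ℝ ∞ Xf := by
  unfold Xf
  exact (Complex.reCLM.contDiff.comp Fc_smooth).prodMk (Complex.imCLM.contDiff.comp Fc_smooth)

theorem Phi_deriv {Z : ℂ} (h : 3 + Z ^ 2 ≠ 0) : HasDerivAt Phi (deriv Phi Z) Z := by
  apply DifferentiableAt.hasDerivAt
  unfold Phi
  apply DifferentiableAt.div
  · fun_prop
  · fun_prop
  · exact h

/-- The columns of the Jacobian matrix of the field are orthogonal. -/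
theorem orth (z : ℝ × ℝ) :
    (fderiv ℝ Xf z (1, 0)).1 * (fderiv ℝ Xf z (0, 1)).1 +
      (fderiv ℝ Xf z (1, 0)).2 * (fderiv ℝ Xf z (0, 1)).2 = 0 := by
  obtain ⟨x, y⟩ := z
  have hX : HasFDerivAt Xf (fderiv ℝ Xf (x, y)) (x, y) :=
    (Xf_smooth.differentiable (by simp) _).hasFDerivAt
  have hP := Phi_deriv (Z := arg1 (x, y)) (den_ne (Yf_abs y))
  set d := deriv Phi (arg1 (x, y)) with hd
  -- first column
  have l1 : HasDerivAt (fun s : ℝ => ((s, y) : ℝ × ℝ)) ((1, 0) : ℝ × ℝ) x :=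
    (hasDerivAt_id x).prodMk (hasDerivAt_const x y)
  have c1 : HasDerivAt (fun s : ℝ => Xf (s, y)) (fderiv ℝ Xf (x, y) (1, 0)) x := by
    have := hX.comp_hasDerivAt x l1
    exact this
  have a1 : HasDerivAt (fun s : ℝ => arg1 (s, y)) 1 x := by
    have h := ((hasDerivAt_id x).ofReal_comp).add_const ((Yf y : ℂ) * I)
    simpa [arg1] using h
  have e1 : HasDerivAt (fun s : ℝ => Fc (s, y)) d x := by
    have := HasDerivAt.scomp (g₁ := Phi) (h := fun s : ℝ => arg1 (s, y)) x hP a1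
    rw [one_smul] at this
    exact this
  have f1 : HasDerivAt (fun s : ℝ => Xf (s, y)) (d.re, d.im) x := by
    unfold Xf
    exact (Complex.reCLM.hasFDerivAt.comp_hasDerivAt x e1).prodMk
      (Complex.imCLM.hasFDerivAt.comp_hasDerivAt x e1)
  have g1 := c1.unique f1
  -- second column
  have l2 : HasDerivAt (fun s : ℝ => ((x, s) : ℝ × ℝ)) ((0, 1) : ℝ × ℝ) y :=
    (hasDerivAt_const y x).prodMk (hasDerivAt_id y)
  have c2 : HasDerivAt (fun s : ℝ => Xf (x, s)) (fderiv ℝ Xf (x, y) (0, 1)) y := by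
    have := hX.comp_hasDerivAt y l2
    exact this
  have hY : HasDerivAt Yf (deriv Yf y) y :=
    (Yf_smooth.differentiable (by simp) _).hasDerivAt
  have a2 : HasDerivAt (fun s : ℝ => arg1 (x, s)) (((deriv Yf y : ℝ) : ℂ) * I) y := by
    have h := ((hY.ofReal_comp).mul_const I).const_add (x : ℂ)
    exact h
  have e2 : HasDerivAt (fun s : ℝ => Fc (x, s)) (((deriv Yf y : ℝ) : ℂ) * I * d) y := by
    have := HasDerivAt.scomp (g₁ := Phi) (h := fun s : ℝ => arg1 (x, s)) y hP a2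
    rw [smul_eq_mul] at this
    exact this
  have f2 : HasDerivAt (fun s : ℝ => Xf (x, s))
      ((((deriv Yf y : ℝ) : ℂ) * I * d).re, (((deriv Yf y : ℝ) : ℂ) * I * d).im) y := by
    unfold Xf
    exact (Complex.reCLM.hasFDerivAt.comp_hasDerivAt y e2).prodMk
      (Complex.imCLM.hasFDerivAt.comp_hasDerivAt y e2)
  have g2 := c2.unique f2
  rw [g1, g2]
  simp
  ring

/-- Real form of `(Z - w)(1 - w̄ Z)`. -/
noncomputable def A1 (X Y : ℝ) : ℝ := 9 / 8 * X - 1 / 4 * (X ^ 2 - Y ^ 2 + 2 * X * Y) - 1 / 4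
/-- Imaginary part of the same. -/
noncomputable def A2 (X Y : ℝ) : ℝ := 9 / 8 * Y - 1 / 4 * (2 * X * Y - (X ^ 2 - Y ^ 2)) - 1 / 4
/-- Real part of `3 + Z²`. -/
noncomputable def C1 (X Y : ℝ) : ℝ := 3 + X ^ 2 - Y ^ 2
/-- Imaginary part of the conjugate of `3 + Z²`. -/
noncomputable def C2 (X Y : ℝ) : ℝ := -2 * X * Y
/-- `|3 + Z²|²`. -/
noncomputable def Dn (X Y : ℝ) : ℝ := C1 X Y ^ 2 + C2 X Y ^ 2
/-- Numerator. -/
noncomputable def N1 (X Y : ℝ) : ℝ := 3 * (A2 X Y * C1 X Y + A1 X Y * C2 X Y)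
/-- Numerator. -/
noncomputable def N2 (X Y : ℝ) : ℝ := -3 * (A1 X Y * C1 X Y - A2 X Y * C2 X Y)

theorem Dn_pos {X Y : ℝ} (hY : |Y| ≤ 3 / 2) : 0 < Dn X Y := by
  unfold Dn C1 C2
  have hY2 : Y ^ 2 ≤ 9 / 4 := by
    have := abs_le.1 hY
    nlinarith
  have h1 : 0 < 3 + X ^ 2 - Y ^ 2 := by nlinarith [sq_nonneg X]
  positivity

theorem Phi_real {X Y : ℝ} (hY : |Y| ≤ 3 / 2) :
    Phi ((X : ℂ) + (Y : ℂ) * I) =
      ((N1 X Y / Dn X Y : ℝ) : ℂ) + ((N2 X Y / Dn X Y : ℝ) : ℂ) * I := by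
  have hD := Dn_pos (X := X) hY
  have hDc : ((Dn X Y : ℝ) : ℂ) ≠ 0 := by exact_mod_cast hD.ne'
  unfold Phi
  rw [div_eq_iff (den_ne hY)]
  have h1 : ((X : ℂ) + (Y : ℂ) * I - (1 + I) / 4) * (1 - (1 - I) / 4 * ((X : ℂ) + (Y : ℂ) * I)) =
      (A1 X Y : ℂ) + (A2 X Y : ℂ) * I := by
    unfold A1 A2
    push_cast
    linear_combination (-(X:ℂ) / 16 + X * Y / 2 - Y * I / 16 - Y ^ 2 / 4 + Y ^ 2 * I / 4) * I_sq
  have h2 : (3 : ℂ) + ((X : ℂ) + (Y : ℂ) * I) ^ 2 = (C1 X Y : ℂ) - (C2 X Y : ℂ) * I := by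
    unfold C1 C2
    push_cast
    linear_combination ((Y:ℂ) ^ 2) * I_sq
  rw [h1, h2]
  have h3 : (((N1 X Y / Dn X Y : ℝ) : ℂ) + ((N2 X Y / Dn X Y : ℝ) : ℂ) * I) *
      ((C1 X Y : ℂ) - (C2 X Y : ℂ) * I) =
      (((N1 X Y : ℝ) : ℂ) + ((N2 X Y : ℝ) : ℂ) * I) * ((C1 X Y : ℂ) - (C2 X Y : ℂ) * I) /
        (Dn X Y : ℂ) := by
    push_cast
    field_simp
  rw [h3, eq_div_iff hDc]
  unfold N1 N2 Dn
  push_cast
  set a := (A1 X Y : ℂ)
  set b := (A2 X Y : ℂ)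
  set c := (C1 X Y : ℂ)
  set d := (C2 X Y : ℂ)
  linear_combination (-(3 * a * c * d + 3 * b * c ^ 2)) * I_sq

end Pool.Agent.V1185.Orth
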