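import Pool.Agent.V1185.Orth.Inv

open Set Filter Topology MeasureTheory intervalIntegral
open scoped ContDiff

namespace Pool.Agent.V1185.Orth

/-- Solving `θ' = -ρ(θ)` for a positive periodic `ρ`. -/
theorem exists_angle {ρ : ℝ → ℝ} (hc : Continuous ρ) (hpos : ∀ x, 0 < ρ x)
    (hper : ∀ x, ρ (x + 2 * Real.pi) = ρ x) :
    ∃ θ : ℝ → ℝ, ∃ T : ℝ, 0 < T ∧ (∀ t, HasDerivAt θ (-ρ (θ t)) t) ∧
      (∀ t, θ (t + T) = θ t - 2 * Real.pi) ∧ Function.Surjective θ := by
  have hpi := Real.pi_pos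
  let f : ℝ → ℝ := fun x => 1 / ρ x
  have hf : Continuous f := continuous_const.div hc (fun x => (hpos x).ne')
  have hfpos : ∀ x, 0 < f x := fun x => one_div_pos.2 (hpos x)
  have hfper : Function.Periodic f (2 * Real.pi) := by
    intro x
    simp only [f]
    rw [hper]
  let τ : ℝ → ℝ := fun x => ∫ u in (0:ℝ)..x, f u
  have hτ : ∀ x, HasDerivAt τ (f x) x := fun x =>
    intervalIntegral.integral_hasDerivAt_right (hf.intervalIntegrable _ _)
      (hf.stronglyMeasurableAtFilter _ _) hf.continuousAt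
  have hmono : StrictMono τ := by
    apply strictMono_of_deriv_pos
    intro x
    rw [(hτ x).deriv]
    exact hfpos x
  set T := τ (2 * Real.pi) with hT
  have hT0 : τ 0 = 0 := by simp [τ]
  have hTpos : 0 < T := by
    rw [hT, ← hT0]
    exact hmono (by positivity)
  have hshift : ∀ x, τ (x + 2 * Real.pi) = τ x + T := by
    intro x
    have h1 : τ (x + 2 * Real.pi) = τ x + ∫ u in x..(x + 2 * Real.pi), f u := by
      simp only [τ]
      rw [intervalIntegral.integral_add_adjacent_intervals (hf.intervalIntegrable _ _)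
        (hf.intervalIntegrable _ _)]
    rw [h1, hfper.intervalIntegral_add_eq x 0, zero_add]
  have hnat : ∀ n : ℕ, τ (n * (2 * Real.pi)) = n * T := by
    intro n
    induction n with
    | zero => simp [hT0]
    | succ n ih =>
      push_cast
      rw [add_mul, one_mul, hshift, ih]
      ring
  have hneg : ∀ n : ℕ, τ (-(n * (2 * Real.pi))) = -(n * T) := by
    intro n
    induction n with
    | zero => simp [hT0]
    | succ n ih =>
      have h1 := hshift (-(((n + 1 : ℕ) : ℝ) * (2 * Real.pi)))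
      have h2 : -(((n + 1 : ℕ) : ℝ) * (2 * Real.pi)) + 2 * Real.pi = -(n * (2 * Real.pi)) := by
        push_cast
        ring
      rw [h2, ih] at h1
      push_cast at h1 ⊢
      linarith
  have hcont : Continuous τ := continuous_iff_continuousAt.2 (fun x => (hτ x).continuousAt)
  have hsurj : Function.Surjective τ := by
    intro y
    obtain ⟨n, hn⟩ := exists_nat_ge (|y| / T)
    rw [div_le_iff₀ hTpos] at hn
    have h1 : τ (-(n * (2 * Real.pi))) ≤ y := by
      rw [hneg]; linarith [neg_abs_le y]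
    have h2 : y ≤ τ (n * (2 * Real.pi)) := by
      rw [hnat]; linarith [le_abs_self y]
    have hle : -((n:ℝ) * (2 * Real.pi)) ≤ n * (2 * Real.pi) := by
      have : 0 ≤ (n:ℝ) * (2 * Real.pi) := by positivity
      linarith
    obtain ⟨x, _, hx⟩ := intermediate_value_Icc hle hcont.continuousOn ⟨h1, h2⟩
    exact ⟨x, hx⟩
  let e : ℝ ≃o ℝ := hmono.orderIsoOfSurjective τ hsurj
  have he : ∀ x, e x = τ x := fun x => rfl
  have hσ : ∀ y, τ (e.symm y) = y := fun y => e.apply_symm_apply y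
  have hσ' : ∀ x, e.symm (τ x) = x := fun x => e.symm_apply_apply x
  have hσd : ∀ y, HasDerivAt e.symm (ρ (e.symm y)) y := by
    intro y
    have h1 := HasDerivAt.of_local_left_inverse (f := τ) (g := e.symm) (a := y)
      (e.symm.continuous.continuousAt) (hτ _) (hfpos _).ne'
      (Filter.Eventually.of_forall hσ)
    refine h1.congr_deriv ?_
    simp [f]
  refine ⟨fun t => e.symm (-t), T, hTpos, ?_, ?_, ?_⟩
  · intro t
    have h1 := (hσd (-t)).comp t (hasDerivAt_neg t)
    refine HasDerivAt.congr_deriv h1 ?_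
    ring
  · intro t
    have h1 : τ (e.symm (-t) - 2 * Real.pi) = -(t + T) := by
      have h2 := hshift (e.symm (-t) - 2 * Real.pi)
      rw [sub_add_cancel, hσ] at h2
      linarith
    rw [← hσ' (e.symm (-t) - 2 * Real.pi), h1]
  · intro x
    exact ⟨-τ x, by simp only [neg_neg]; exact hσ' x⟩

/-- A periodic orbit. -/
def IsPeriodicOrbit (X : ℝ × ℝ → ℝ × ℝ) (O : Set (ℝ × ℝ)) : Prop :=
  ∃ γ : ℝ → ℝ × ℝ, (∀ t, HasDerivAt γ (X (γ t)) t) ∧ (∃ T > 0, ∀ t, γ (t + T) = γ t) ∧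
    (∃ t, γ t ≠ γ 0) ∧ O = Set.range γ

/-- A limit cycle. -/
def IsLimitCycle (X : ℝ × ℝ → ℝ × ℝ) (O : Set (ℝ × ℝ)) : Prop :=
  IsPeriodicOrbit X O ∧ ∃ U : Set (ℝ × ℝ), IsOpen U ∧ O ⊆ U ∧
    ∀ O', IsPeriodicOrbit X O' → O' ⊆ U → O' = O

/-- The ellipse. -/
def El : Set (ℝ × ℝ) := {z | z.1 ^ 2 + (z.2 / 2) ^ 2 = 1}

theorem El_compact : IsCompact El := by
  apply Metric.isCompact_of_isClosed_isBounded
  · unfold El
    exact isClosed_eq (by fun_prop) continuous_const
  · apply (Metric.isBounded_closedBall (x := (0 : ℝ × ℝ)) (r := 2)).subset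
    intro z hz
    unfold El at hz
    rw [Set.mem_ofPred_eq] at hz
    rw [Metric.mem_closedBall, dist_zero_right, Prod.norm_def, Real.norm_eq_abs, Real.norm_eq_abs]
    apply max_le
    · rw [abs_le]; constructor <;> nlinarith [sq_nonneg z.2, sq_nonneg z.1]
    · rw [abs_le]; constructor <;> nlinarith [sq_nonneg z.2, sq_nonneg z.1]

/-- The neighbourhood of the ellipse. -/
noncomputable def Nb : Set (ℝ × ℝ) :=
  {z | |z.2| < 5 / 2 ∧ 0 < mm z.1 (z.2 / 2) ∧ 0 < Wp z.1 (z.2 / 2)}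

theorem Nb_open : IsOpen Nb := by
  unfold Nb
  have h1 : IsOpen {z : ℝ × ℝ | |z.2| < 5 / 2} := isOpen_lt (by fun_prop) continuous_const
  have h2 : IsOpen {z : ℝ × ℝ | 0 < mm z.1 (z.2 / 2)} := by
    unfold mm
    exact isOpen_lt continuous_const (by fun_prop)
  have h3 : IsOpen {z : ℝ × ℝ | 0 < Wp z.1 (z.2 / 2)} := by
    unfold Wp mgX mgY N1 N2 KD Dn A1 A2 C1 C2 gR gS mm
    exact isOpen_lt continuous_const (by fun_prop)
  exact h1.inter (h2.inter h3)

theorem El_sub : El ⊆ Nb := by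
  intro z hz
  unfold El at hz
  rw [Set.mem_ofPred_eq] at hz
  refine ⟨?_, mm_pos hz, Wp_pos hz⟩
  rw [abs_lt]
  constructor <;> nlinarith [sq_nonneg z.1]

theorem const_of_mono_periodic {f : ℝ → ℝ} (hf : Monotone f) {T : ℝ} (hT : 0 < T)
    (hper : ∀ t, f (t + T) = f t) (x : ℝ) : f x = f 0 := by
  have h1 : ∀ n : ℕ, f (n * T) = f 0 := by
    intro n
    induction n with
    | zero => simp
    | succ n ih => push_cast; rw [add_mul, one_mul, hper, ih]
  have h2 : ∀ n : ℕ, f (-(n * T)) = f 0 := by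
    intro n
    induction n with
    | zero => simp
    | succ n ih =>
      have h3 := hper (-(((n + 1 : ℕ) : ℝ) * T))
      have h4 : -(((n + 1 : ℕ) : ℝ) * T) + T = -(n * T) := by push_cast; ring
      rw [h4, ih] at h3
      exact h3.symm
  obtain ⟨n, hn⟩ := exists_nat_ge (|x| / T)
  rw [div_le_iff₀ hT] at hn
  apply le_antisymm
  · rw [← h1 n]
    exact hf (by linarith [le_abs_self x])
  · rw [← h2 n]
    exact hf (by linarith [neg_abs_le x])

/-- Periodic orbits in the neighbourhood lie on the ellipse. -/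
theorem on_El {γ : ℝ → ℝ × ℝ} (hγ : ∀ t, HasDerivAt γ (Xf (γ t)) t) {T : ℝ} (hT : 0 < T)
    (hper : ∀ t, γ (t + T) = γ t) (hN : ∀ t, γ t ∈ Nb) (t : ℝ) : γ t ∈ El := by
  let x : ℝ → ℝ := fun t => (γ t).1
  let y : ℝ → ℝ := fun t => (γ t).2 / 2
  have hY : ∀ t, |y t| ≤ 3 / 2 := by
    intro t
    simp only [y]
    rw [abs_div, abs_of_pos (show (0:ℝ) < 2 by norm_num)]
    linarith [(hN t).1]
  have hD : ∀ t, 0 < Dn (x t) (y t) := fun t => Dn_pos (hY t)
  have hx : ∀ t, HasDerivAt x (N1 (x t) (y t) / Dn (x t) (y t)) t := by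
    intro t
    have h1 := (hasFDerivAt_fst (𝕜 := ℝ) (p := γ t)).comp_hasDerivAt t (hγ t)
    rw [Xf_eq (hN t).1] at h1
    exact h1
  have hy : ∀ t, HasDerivAt y (N2 (x t) (y t) / Dn (x t) (y t) / 2) t := by
    intro t
    have h1 := (hasFDerivAt_snd (𝕜 := ℝ) (p := γ t)).comp_hasDerivAt t (hγ t)
    rw [Xf_eq (hN t).1] at h1
    exact HasDerivAt.div_const h1 2
  have hE := fun t => Ef_deriv (hN t).2.1 (hD t) (hx t) (hy t)
  have hE2 := fun t => sq_deriv (hE t)
  have hmono : Monotone (fun s => Ef (x s) (y s) ^ 2) := by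
    apply monotone_of_deriv_nonneg
    · intro t; exact (hE2 t).differentiableAt
    · intro t
      rw [(hE2 t).deriv]
      have h1 : 0 < Wp (x t) (y t) := (hN t).2.2
      have h2 : 0 < mm (x t) (y t) := (hN t).2.1
      have h3 := hD t
      have h4 : 2 * Ef (x t) (y t) *
          (Wp (x t) (y t) / (mm (x t) (y t) * Dn (x t) (y t)) * Ef (x t) (y t)) =
          2 * (Wp (x t) (y t) / (mm (x t) (y t) * Dn (x t) (y t))) * Ef (x t) (y t) ^ 2 := by ring
      rw [h4]
      positivity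
  have hconst := const_of_mono_periodic hmono hT (by
    intro t
    simp only [x, y, hper])
  have hfun : (fun s => Ef (x s) (y s) ^ 2) = fun _ => Ef (x 0) (y 0) ^ 2 := funext hconst
  have h0 := hE2 t
  rw [hfun] at h0
  have h1 := h0.unique (hasDerivAt_const t _)
  have h2 : 0 < Wp (x t) (y t) := (hN t).2.2
  have h3 : 0 < mm (x t) (y t) := (hN t).2.1
  have h4 := hD t
  have h5 : Ef (x t) (y t) = 0 := by
    have h6 : 2 * (Wp (x t) (y t) / (mm (x t) (y t) * Dn (x t) (y t))) * Ef (x t) (y t) ^ 2 = 0 := by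
      rw [← h1]; ring
    have h7 : 0 < 2 * (Wp (x t) (y t) / (mm (x t) (y t) * Dn (x t) (y t))) := by positivity
    rcases mul_eq_zero.1 h6 with h8 | h8
    · exact absurd h8 h7.ne'
    · exact pow_eq_zero_iff (by norm_num) |>.1 h8
  unfold Ef at h5
  rcases mul_eq_zero.1 h5 with h6 | h6
  · unfold El
    rw [Set.mem_ofPred_eq]
    change (x t) ^ 2 + (y t) ^ 2 = 1
    linarith
  · exact absurd h6 (Real.exp_ne_zero _)

/-- The angular speed. -/
noncomputable def rho (θ : ℝ) : ℝ :=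
  6 * mm (Real.cos θ) (Real.sin θ) / (16 * Real.cos θ ^ 2 + 4 * Real.sin θ ^ 2)

theorem rho_den (θ : ℝ) : 0 < 16 * Real.cos θ ^ 2 + 4 * Real.sin θ ^ 2 := by
  nlinarith [Real.sin_sq_add_cos_sq θ, sq_nonneg (Real.cos θ)]

theorem main : ∃ O, IsLimitCycle Xf O := by
  have hcs : ∀ θ : ℝ, Real.cos θ ^ 2 + Real.sin θ ^ 2 = 1 := Real.cos_sq_add_sin_sq
  have hρc : Continuous rho := by
    unfold rho mm
    apply Continuous.div
    · fun_prop
    · fun_prop
    · intro θ; exact (rho_den θ).ne'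
  have hρpos : ∀ x, 0 < rho x := by
    intro x
    unfold rho
    have h1 := mm_pos (hcs x)
    have h2 := rho_den x
    positivity
  have hρper : ∀ x, rho (x + 2 * Real.pi) = rho x := by
    intro x
    unfold rho
    rw [Real.cos_add_two_pi, Real.sin_add_two_pi]
  obtain ⟨θ, T, hT, hθ, hθT, hsurj⟩ := exists_angle hρc hρpos hρper
  let γ : ℝ → ℝ × ℝ := fun t => (Real.cos (θ t), 2 * Real.sin (θ t))
  have hγEl : ∀ t, γ t ∈ El := by
    intro t
    unfold El
    rw [Set.mem_ofPred_eq]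
    simp only [γ]
    have := hcs (θ t)
    linarith [this, show (2 * Real.sin (θ t) / 2) ^ 2 = Real.sin (θ t) ^ 2 by ring]
  have hγ : ∀ t, HasDerivAt γ (Xf (γ t)) t := by
    intro t
    rw [Xf_eq (El_sub (hγEl t)).1]
    have h1 : HasDerivAt (fun s => Real.cos (θ s)) (-Real.sin (θ t) * -rho (θ t)) t :=
      (Real.hasDerivAt_cos (θ t)).comp t (hθ t)
    have h2 : HasDerivAt (fun s => 2 * Real.sin (θ s)) (2 * (Real.cos (θ t) * -rho (θ t))) t :=
      ((Real.hasDerivAt_sin (θ t)).comp t (hθ t)).const_mul 2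
    refine HasDerivAt.congr_deriv (h1.prodMk h2) ?_
    simp only [γ]
    have h3 : 2 * Real.sin (θ t) / 2 = Real.sin (θ t) := by ring
    rw [h3]
    obtain ⟨e1, e2, e3, _⟩ := on_circle (hcs (θ t))
    rw [e1, e2, e3]
    unfold rho
    have hden := (rho_den (θ t)).ne'
    apply Prod.ext
    · simp only
      field_simp
    · simp only
      field_simp
      ring
  have hγT : ∀ t, γ (t + T) = γ t := by
    intro t
    simp only [γ]
    rw [hθT, Real.cos_sub_two_pi, Real.sin_sub_two_pi]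
  have hγsurj : ∀ z ∈ El, ∃ t, γ t = z := by
    intro z hz
    unfold El at hz
    rw [Set.mem_ofPred_eq] at hz
    obtain ⟨φ, h1, h2⟩ : ∃ φ : ℝ, Real.cos φ = z.1 ∧ Real.sin φ = z.2 / 2 := by
      refine ⟨Complex.arg ⟨z.1, z.2 / 2⟩, ?_, ?_⟩
      · have hn : ‖(⟨z.1, z.2 / 2⟩ : ℂ)‖ = 1 := by
          rw [Complex.norm_def, Complex.normSq_mk]
          have : z.1 * z.1 + z.2 / 2 * (z.2 / 2) = 1 := by nlinarith
          rw [this, Real.sqrt_one]
        have hne : (⟨z.1, z.2 / 2⟩ : ℂ) ≠ 0 := by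
          intro h; rw [h, norm_zero] at hn; norm_num at hn
        rw [Complex.cos_arg hne, hn, div_one]
      · have hn : ‖(⟨z.1, z.2 / 2⟩ : ℂ)‖ = 1 := by
          rw [Complex.norm_def, Complex.normSq_mk]
          have : z.1 * z.1 + z.2 / 2 * (z.2 / 2) = 1 := by nlinarith
          rw [this, Real.sqrt_one]
        rw [Complex.sin_arg, hn, div_one]
    obtain ⟨t, ht⟩ := hsurj φ
    refine ⟨t, ?_⟩
    simp only [γ]
    rw [ht, h1, h2]
    apply Prod.ext
    · rfl
    · simp only; ring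
  refine ⟨Set.range γ, ⟨γ, hγ, ⟨T, hT, hγT⟩, ?_, rfl⟩, Nb, Nb_open, ?_, ?_⟩
  · -- not constant
    obtain ⟨t1, ht1⟩ := hγsurj (1, 0) (by unfold El; simp)
    obtain ⟨t2, ht2⟩ := hγsurj (-1, 0) (by unfold El; simp)
    by_contra hcon
    push Not at hcon
    have h1 := (hcon t1).trans (hcon t2).symm
    rw [ht1, ht2] at h1
    have := congrArg Prod.fst h1
    norm_num at this
  · rintro z ⟨t, rfl⟩
    exact El_sub (hγEl t)
  · rintro O' ⟨δ, hδ, ⟨T', hT', hδT⟩, _, rfl⟩ hsub
    have hδEl : ∀ t, δ t ∈ El := fun t =>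
      on_El hδ hT' hδT (fun s => hsub ⟨s, rfl⟩) t
    obtain ⟨t0, ht0⟩ := hγsurj (δ 0) (hδEl 0)
    obtain ⟨K, hK⟩ := LocallyLipschitzOn.exists_lipschitzOnWith_of_compact El_compact
      ((Xf_smooth.of_le (by simp) : ContDiff ℝ 1 Xf).locallyLipschitz.locallyLipschitzOn)
    have hγ' : ∀ t, HasDerivAt (fun s => γ (s + t0)) (Xf (γ (t + t0))) t := by
      intro t
      exact (hγ (t + t0)).comp_add_const t t0
    have huniq : δ = fun s => γ (s + t0) := by
      apply ODE_solution_unique_univ (v := fun _ => Xf) (s := fun _ => El) (K := K) (t₀ := 0)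
      · intro _; exact hK
      · intro t; exact ⟨hδ t, hδEl t⟩
      · intro t; exact ⟨hγ' t, hγEl _⟩
      · simp only [zero_add]; exact ht0.symm
    rw [huniq]
    ext z
    constructor
    · rintro ⟨s, rfl⟩; exact ⟨s + t0, rfl⟩
    · rintro ⟨s, rfl⟩; exact ⟨s - t0, by simp⟩

end Pool.Agent.V1185.Orth
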