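import Pool.Agent.V1185.Orth.Field

open Set Filter Topology
open scoped ContDiff

namespace Pool.Agent.V1185.Orth

theorem Xf_eq {z : ℝ × ℝ} (hz : |z.2| < 5 / 2) :
    Xf z = (N1 z.1 (z.2 / 2) / Dn z.1 (z.2 / 2), N2 z.1 (z.2 / 2) / Dn z.1 (z.2 / 2)) := by
  have hY : |z.2 / 2| ≤ 3 / 2 := by
    rw [abs_div, abs_of_pos (show (0:ℝ) < 2 by norm_num)]
    linarith
  unfold Xf Fc arg1
  rw [Yf_eq hz, Phi_real hY]
  simp

/-- `X + Y` weight. -/
noncomputable def mm (X Y : ℝ) : ℝ := 9 / 8 - (X + Y) / 2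

/-- Cofactor times denominator. -/
noncomputable def KD (X Y : ℝ) : ℝ :=
  -(3 / 2) * ((Y - X) / 4 * Dn X Y + A1 X Y * (3 - (X ^ 2 + Y ^ 2)) * Y +
    A2 X Y * (3 + (X ^ 2 + Y ^ 2)) * X)

theorem cofactor (X Y : ℝ) : 2 * X * N1 X Y + Y * N2 X Y = KD X Y * (X ^ 2 + Y ^ 2 - 1) := by
  unfold KD N1 N2 Dn A1 A2 C1 C2
  ring

/-- Partial derivative. -/
noncomputable def gR (_R S : ℝ) : ℝ := -1 / 4 + (2 * S ^ 2 - 1) / 12 + S * (S ^ 2 - 1) / 18
/-- Partial derivative. -/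
noncomputable def gS (R S : ℝ) : ℝ := R * S / 3 + R * (3 * S ^ 2 - 1) / 18

/-- `m g_X`. -/
noncomputable def mgX (X Y : ℝ) : ℝ :=
  -(3 / 4) * X * mm X Y - 5 / 8 + 3 / 4 * mm X Y * (-gR (Y - X) (X + Y) + gS (Y - X) (X + Y))
/-- `m g_Y`. -/
noncomputable def mgY (X Y : ℝ) : ℝ :=
  3 / 4 * Y * mm X Y - 5 / 8 + 3 / 4 * mm X Y * (gR (Y - X) (X + Y) + gS (Y - X) (X + Y))

/-- The polynomial whose positivity gives the isolation. -/
noncomputable def Wp (X Y : ℝ) : ℝ :=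
  mm X Y * KD X Y - (mgX X Y * N1 X Y + mgY X Y * (N2 X Y / 2))

theorem on_circle {X Y : ℝ} (h : X ^ 2 + Y ^ 2 = 1) :
    N1 X Y = 6 * mm X Y * Y ∧ N2 X Y = -12 * mm X Y * X ∧ Dn X Y = 16 * X ^ 2 + 4 * Y ^ 2 ∧
      KD X Y = -(3 / 2) * ((Y - X) / 4 * (16 * X ^ 2 + 4 * Y ^ 2) + 6 * mm X Y * X * Y) := by
  have hA1 : A1 X Y = mm X Y * X := by
    unfold A1 mm; linear_combination (1 / 4) * h
  have hA2 : A2 X Y = mm X Y * Y := by
    unfold A2 mm; linear_combination (1 / 4) * h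
  have hC1 : C1 X Y = 4 * X ^ 2 + 2 * Y ^ 2 := by
    unfold C1; linear_combination (-3) * h
  have hD : Dn X Y = 16 * X ^ 2 + 4 * Y ^ 2 := by
    unfold Dn
    rw [hC1]
    unfold C2
    linear_combination (16 * X ^ 2 + 4 * Y ^ 2) * h
  refine ⟨?_, ?_, hD, ?_⟩
  · unfold N1
    rw [hA1, hA2, hC1]
    unfold C2
    linear_combination (6 * mm X Y * Y) * h
  · unfold N2
    rw [hA1, hA2, hC1]
    unfold C2
    linear_combination (-12 * mm X Y * X) * h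
  · unfold KD
    rw [hA1, hA2, hD, h]
    ring

theorem Wp_circle {X Y : ℝ} (h : X ^ 2 + Y ^ 2 = 1) :
    Wp X Y = 1 / 32 * mm X Y *
      (18 - 26 * (X + Y) + 41 * (X + Y) ^ 3 - 16 * (X + Y) ^ 5) := by
  obtain ⟨h1, h2, _, h4⟩ := on_circle h
  have e1 : Wp X Y = mm X Y * ((Y - X) * (15 / 4 - 3 / 8 * (16 * X ^ 2 + 4 * Y ^ 2)) +
      9 / 2 * mm X Y * ((X + Y) * gR (Y - X) (X + Y) - (Y - X) * gS (Y - X) (X + Y))) := by
    unfold Wp mgX mgY
    rw [h1, h2, h4]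
    ring
  rw [e1]
  have e2 : (Y - X) * (15 / 4 - 3 / 8 * (16 * X ^ 2 + 4 * Y ^ 2)) =
      9 / 4 * (2 - (X + Y) ^ 2) * (X + Y) := by
    have : (2:ℝ) - (X + Y) ^ 2 = (Y - X) ^ 2 := by linear_combination (-2) * h
    rw [this]
    linear_combination (-15 / 4 * (Y - X)) * h
  have e3 : (X + Y) * gR (Y - X) (X + Y) - (Y - X) * gS (Y - X) (X + Y) =
      (X + Y) ^ 3 / 2 - (X + Y) + (2 * (X + Y) ^ 4 - 4 * (X + Y) ^ 2 + 1) / 9 := by
    have hR : (Y - X) ^ 2 = 2 - (X + Y) ^ 2 := by linear_combination 2 * h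
    unfold gR gS
    have : (X + Y) * (-1 / 4 + (2 * (X + Y) ^ 2 - 1) / 12 + (X + Y) * ((X + Y) ^ 2 - 1) / 18) -
        (Y - X) * ((Y - X) * (X + Y) / 3 + (Y - X) * (3 * (X + Y) ^ 2 - 1) / 18) =
        (X + Y) * (-1 / 4 + (2 * (X + Y) ^ 2 - 1) / 12 + (X + Y) * ((X + Y) ^ 2 - 1) / 18) -
        (Y - X) ^ 2 * ((X + Y) / 3 + (3 * (X + Y) ^ 2 - 1) / 18) := by ring
    rw [this, hR]
    ring
  rw [e2, e3]
  unfold mm
  ring

theorem mm_pos {X Y : ℝ} (h : X ^ 2 + Y ^ 2 = 1) : 0 < mm X Y := by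
  unfold mm
  nlinarith [sq_nonneg (X - Y), sq_nonneg (X + Y - 2)]

theorem poly_pos {S : ℝ} (h : S ^ 2 ≤ 2) : 0 < 18 - 26 * S + 41 * S ^ 3 - 16 * S ^ 5 := by
  set v := S ^ 2 with hv
  have hv0 : 0 ≤ v := sq_nonneg S
  set q := 26 - 41 * v + 16 * v ^ 2 with hq
  have e : 18 - 26 * S + 41 * S ^ 3 - 16 * S ^ 5 = 18 - S * q := by
    rw [hq, hv]; ring
  rw [e]
  have h1 : |S| ≤ (1 + v) / 2 := by
    rw [hv, ← sq_abs S]
    nlinarith [sq_nonneg (|S| - 1)]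
  have h2 : (1 + v) * |q| < 36 := by
    rcases abs_cases q with ⟨h3, _⟩ | ⟨h3, _⟩
    · rw [h3, hq]
      nlinarith [mul_nonneg hv0 (sub_nonneg.2 h), mul_nonneg (mul_nonneg hv0 hv0) (sub_nonneg.2 h)]
    · rw [h3, hq]
      nlinarith [mul_nonneg hv0 (sub_nonneg.2 h), sq_nonneg (v - 41 / 32),
        mul_nonneg hv0 (sq_nonneg (v - 41 / 32))]
  have h3 : S * q ≤ |S| * |q| := by rw [← abs_mul]; exact le_abs_self _
  have h4 : |S| * |q| ≤ (1 + v) / 2 * |q| := mul_le_mul_of_nonneg_right h1 (abs_nonneg _)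
  linarith

theorem Wp_pos {X Y : ℝ} (h : X ^ 2 + Y ^ 2 = 1) : 0 < Wp X Y := by
  rw [Wp_circle h]
  have h1 := mm_pos h
  have h2 : (X + Y) ^ 2 ≤ 2 := by nlinarith [sq_nonneg (X - Y)]
  have h3 := poly_pos h2
  positivity

/-- The Lyapunov type function. -/
noncomputable def gfun (X Y : ℝ) : ℝ :=
  -(3 / 8) * (X ^ 2 - Y ^ 2) + 5 / 4 * Real.log (mm X Y) +
    3 / 4 * (-(Y - X) / 4 + (Y - X) * (2 * (X + Y) ^ 2 - 1) / 12 +
      (Y - X) * (X + Y) * ((X + Y) ^ 2 - 1) / 18)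

/-- `H exp(-g)`. -/
noncomputable def Ef (X Y : ℝ) : ℝ := (X ^ 2 + Y ^ 2 - 1) * Real.exp (-gfun X Y)

theorem sq_deriv {x : ℝ → ℝ} {t a : ℝ} (hx : HasDerivAt x a t) :
    HasDerivAt (fun s => x s ^ 2) (2 * x t * a) t := by
  have h := hx.mul hx
  have e : (fun s => x s ^ 2) = x * x := by
    funext s
    simp [pow_two]
  rw [e]
  exact h.congr_deriv (by ring)

theorem Ef_deriv {x y : ℝ → ℝ} {t : ℝ} (hm : 0 < mm (x t) (y t)) (hD : 0 < Dn (x t) (y t))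
    (hx : HasDerivAt x (N1 (x t) (y t) / Dn (x t) (y t)) t)
    (hy : HasDerivAt y (N2 (x t) (y t) / Dn (x t) (y t) / 2) t) :
    HasDerivAt (fun s => Ef (x s) (y s))
      (Wp (x t) (y t) / (mm (x t) (y t) * Dn (x t) (y t)) * Ef (x t) (y t)) t := by
  set a := N1 (x t) (y t) / Dn (x t) (y t) with ha
  set b := N2 (x t) (y t) / Dn (x t) (y t) / 2 with hb
  have hmm : HasDerivAt (fun s => mm (x s) (y s)) (-((a + b) / 2)) t := by
    unfold mm
    have h := ((hx.add hy).div_const 2).const_sub (9 / 8 : ℝ)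
    exact h
  have hR : HasDerivAt (fun s => y s - x s) (b - a) t := hy.sub hx
  have hS : HasDerivAt (fun s => x s + y s) (a + b) t := hx.add hy
  have hS2 : HasDerivAt (fun s => (x s + y s) ^ 2) (2 * (x t + y t) * (a + b)) t := sq_deriv hS
  have hg : HasDerivAt (fun s => gfun (x s) (y s))
      (-(3 / 8) * (2 * x t * a - 2 * y t * b) + 5 / 4 * (-((a + b) / 2) / mm (x t) (y t)) +
        3 / 4 * (gR (y t - x t) (x t + y t) * (b - a) + gS (y t - x t) (x t + y t) * (a + b))) t := by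
    unfold gfun
    have h1 : HasDerivAt (fun s => -(3 / 8) * (x s ^ 2 - y s ^ 2))
        (-(3 / 8) * (2 * x t * a - 2 * y t * b)) t :=
      ((sq_deriv hx).sub (sq_deriv hy)).const_mul (-(3 / 8 : ℝ))
    have h2 : HasDerivAt (fun s => 5 / 4 * Real.log (mm (x s) (y s)))
        (5 / 4 * (-((a + b) / 2) / mm (x t) (y t))) t := (hmm.log hm.ne').const_mul _
    have h3 : HasDerivAt (fun s => 3 / 4 * (-(y s - x s) / 4 +
        (y s - x s) * (2 * (x s + y s) ^ 2 - 1) / 12 +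
        (y s - x s) * (x s + y s) * ((x s + y s) ^ 2 - 1) / 18))
        (3 / 4 * (gR (y t - x t) (x t + y t) * (b - a) +
          gS (y t - x t) (x t + y t) * (a + b))) t := by
      have k1 : HasDerivAt (fun s => -(y s - x s) / 4) (-(b - a) / 4) t := (hR.neg).div_const 4
      have k2 : HasDerivAt (fun s => (y s - x s) * (2 * (x s + y s) ^ 2 - 1) / 12)
          (((b - a) * (2 * (x t + y t) ^ 2 - 1) +
            (y t - x t) * (2 * (2 * (x t + y t) * (a + b)))) / 12) t :=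
        (hR.mul ((hS2.const_mul 2).sub_const 1)).div_const 12
      have k3 : HasDerivAt (fun s => (y s - x s) * (x s + y s) * ((x s + y s) ^ 2 - 1) / 18)
          ((((b - a) * (x t + y t) + (y t - x t) * (a + b)) * ((x t + y t) ^ 2 - 1) +
            (y t - x t) * (x t + y t) * (2 * (x t + y t) * (a + b))) / 18) t :=
        ((hR.mul hS).mul (hS2.sub_const 1)).div_const 18
      have k4 := ((k1.add k2).add k3).const_mul (3 / 4 : ℝ)
      refine HasDerivAt.congr_deriv k4 ?_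
      unfold gR gS
      ring
    exact (h1.add h2).add h3
  unfold Ef
  have h1 : HasDerivAt (fun s => x s ^ 2 + y s ^ 2 - 1) (2 * x t * a + 2 * y t * b) t :=
    ((sq_deriv hx).add (sq_deriv hy)).sub_const 1
  have h2 : HasDerivAt (fun s => (x s ^ 2 + y s ^ 2 - 1) * Real.exp (-gfun (x s) (y s)))
      ((2 * x t * a + 2 * y t * b) * Real.exp (-gfun (x t) (y t)) +
        (x t ^ 2 + y t ^ 2 - 1) * (Real.exp (-gfun (x t) (y t)) *
          -(-(3 / 8) * (2 * x t * a - 2 * y t * b) + 5 / 4 * (-((a + b) / 2) / mm (x t) (y t)) +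
        3 / 4 * (gR (y t - x t) (x t + y t) * (b - a) +
          gS (y t - x t) (x t + y t) * (a + b))))) t := h1.mul hg.neg.exp
  refine HasDerivAt.congr_deriv h2 ?_
  have h3 : 2 * x t * a + 2 * y t * b =
      KD (x t) (y t) / Dn (x t) (y t) * (x t ^ 2 + y t ^ 2 - 1) := by
    rw [ha, hb]
    have h4 := cofactor (x t) (y t)
    have h5 : KD (x t) (y t) / Dn (x t) (y t) * (x t ^ 2 + y t ^ 2 - 1) =
        (KD (x t) (y t) * (x t ^ 2 + y t ^ 2 - 1)) / Dn (x t) (y t) := by ring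
    rw [h5, ← h4]
    field_simp
  rw [h3]
  have hmne := hm.ne'
  have hDne := hD.ne'
  have h6 : Wp (x t) (y t) / (mm (x t) (y t) * Dn (x t) (y t)) =
      KD (x t) (y t) / Dn (x t) (y t) -
      (-(3 / 8) * (2 * x t * a - 2 * y t * b) + 5 / 4 * (-((a + b) / 2) / mm (x t) (y t)) +
        3 / 4 * (gR (y t - x t) (x t + y t) * (b - a) +
          gS (y t - x t) (x t + y t) * (a + b))) := by
    rw [ha, hb]
    unfold Wp mgX mgY
    field_simp
    ring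
  rw [h6]
  ring

end Pool.Agent.V1185.Orth
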